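import Pool.Agent.H65.FIN.Fin

/-!
# THEOREM FIN: arbitrary sets of generators
-/

set_option autoImplicit false

namespace Pool.Agent.H65.FIN

open CoxeterSystem Pool.H8.CDW Pool.Agent.H52.PAG Pool.Agent.H75.INF Pool.Agent.H98.FJ Pool.Agent.H54.CX Pool.Agent.H54.TF
open Pool.Agent.H54.AR (rst rst_apply)

variable {C : (G : Type) → [Group G] → Prop}

/-- THEOREM FIN -/
theorem fin (hC : Inherits C) (hE : Extension C) (hcat : Cat2 C) (hGL : ∀ n : ℕ, C (GL (Fin n) ℤ)) (hG : GirAll)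
    (B : Type) (M : CoxeterMatrix B)
    (hM : ∀ K : Finset B, (∀ i ∈ K, ∀ j ∈ K, M i j ≠ 0) →
      (∀ L ⊆ K, L.Nonempty → L ≠ K → ∃ i ∈ L, ∃ j ∈ K, j ∉ L ∧ M i j ≠ 2) →
      C (Art (rst M K)) ∨ ∀ T ⊆ K, 3 ≤ T.card →
        (∀ L ⊆ T, L.Nonempty → L ≠ T → ∃ i ∈ L, ∃ j ∈ T, j ∉ L ∧ M i j ≠ 2) →
        (∀ i ∈ T, ∀ j ∈ T, ∀ k ∈ T, i ≠ j → j ≠ k → i ≠ k → (1 : ℝ) < 1 / M i j + 1 / M j k + 1 / M i k) →
        Finite (rst M T).Group ∧ C (Art (rst M T))) : C (Art M) := by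
  classical
  refine irr_mem hC hE hGL B M fun K hK hirr => ?_
  rcases hM K hK hirr with h | h
  · exact h
  refine fin_fin hC hE hcat hGL hG (Nat.card K) K (rst M K) rfl (fun i j => hK i.1 i.2 j.1 j.2) ?_
  intro T hI hT3 hT
  -- the subset of `K`
  obtain ⟨T', hT'⟩ : ∃ T' : Finset B, ∀ x, x ∈ T' ↔ ∃ hx : x ∈ K, (⟨x, hx⟩ : K) ∈ T := by
    refine ⟨K.filter fun x => ∃ hx : x ∈ K, (⟨x, hx⟩ : K) ∈ T, fun x => ?_⟩
    rw [Finset.mem_filter]
    exact ⟨fun h => h.2, fun h => ⟨h.1, h⟩⟩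
  have hsub : T' ⊆ K := fun x hx => ((hT' x).1 hx).1
  have hmem : ∀ x : K, x ∈ T → (x : B) ∈ T' := fun x hx => (hT' x).2 ⟨x.2, hx⟩
  obtain ⟨e, he⟩ : ∃ e : T' ≃ T, ∀ x, ((e x : K) : B) = x := by
    refine ⟨⟨fun x => ⟨⟨x.1, hsub x.2⟩, ((hT' x.1).1 x.2).2⟩, fun x => ⟨x.1.1, hmem x.1 x.2⟩, fun _ => rfl,
      fun _ => rfl⟩, fun _ => rfl⟩
  have hcard : 3 ≤ T'.card := by
    have h1 : Nat.card T' = Nat.card T := Nat.card_congr e
    rw [Nat.card_eq_fintype_card, Fintype.card_coe] at h1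
    rw [h1, Nat.card_coe_set_eq]
    exact hT3
  have h1 := h T' hsub hcard (fun L hL hne hLT => by
    obtain ⟨i, hi, j, hj, hjL, hij⟩ := hI {x : K | (x : B) ∈ L} (fun x hx => by
        obtain ⟨hx1, hx2⟩ := (hT' x).1 (hL hx)
        exact hx2) (by
        obtain ⟨x, hx⟩ := hne
        exact ⟨⟨x, hsub (hL hx)⟩, hx⟩) (by
        intro h4
        apply hLT
        refine Finset.Subset.antisymm hL fun x hx => ?_
        obtain ⟨hx1, hx2⟩ := (hT' x).1 hx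
        rw [← h4] at hx2
        exact hx2)
    exact ⟨i.1, hi, j.1, hmem j hj, hjL, hij⟩) (fun i hi j hj k hk hij hjk hik => by
      obtain ⟨hi1, hi2⟩ := (hT' i).1 hi
      obtain ⟨hj1, hj2⟩ := (hT' j).1 hj
      obtain ⟨hk1, hk2⟩ := (hT' k).1 hk
      exact hT _ hi2 _ hj2 _ hk2 (fun e => hij (congrArg Subtype.val e)) (fun e => hjk (congrArg Subtype.val e))
        (fun e => hik (congrArg Subtype.val e)))
  have hlab : ∀ i j, resM (rst M K) T (e i) (e j) = rst M T' i j := by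
    intro i j
    show M ((e i : K) : B) ((e j : K) : B) = M i.1 j.1
    rw [he, he]
  constructor
  · have h2 : (rst M T').reindex e = resM (rst M K) T := by
      ext i j
      rw [CoxeterMatrix.reindex_apply, ← hlab, e.apply_symm_apply, e.apply_symm_apply]
    rw [← h2]
    have := h1.1
    exact Finite.of_equiv _ ((rst M T').reindexGroupEquiv e).symm.toEquiv
  · obtain ⟨f⟩ := art_congr (rst M T') (resM (rst M K) T) e hlab
    exact hC.iso _ _ f h1.2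

end Pool.Agent.H65.FIN
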