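import Pool.Agent.H65.FIN.Main
import Pool.Agent.H54.BS.Fin
import Pool.Agent.H52.VK.Avp

/-!
# THEOREM FIN: the assembly
-/

set_option autoImplicit false

namespace Pool.Agent.H65.FIN

open CoxeterSystem Pool.H8.CDW Pool.Agent.H52.PAG Pool.Agent.H75.INF Pool.Agent.H54.TF Pool.Agent.H34.TG Pool.Agent.H54.BS
  Pool.Agent.H52.VK

private theorem cdiff {B : Type} (a b : B) : ({a}ᶜ \ {b} : Set B) = ({a, b}ᶜ : Set B) := by
  ext s
  simp only [Set.mem_sdiff, Set.mem_compl_iff, Set.mem_singleton_iff, Set.mem_insert_iff, not_or]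

/-- the step for polygons -/
theorem pstep : PStep := fun _ _ _ hM _ _ _ hpq hqr hpr hU hp hq hr => pol_step hM hpq hqr hpr hU hp hq hr

/-- the girth of the links -/
theorem girAll : GirAll := by
  intro B _ M hM hW a b c hab hac hbc
  have h2 := gir_irr pstep hM ({a}ᶜ : Set B) (fun L _ h1 h3 h4 => hW L h1 h3 h4) (fun h => hab (Eq.symm h))
    (fun h => hac (Eq.symm h)) hbc
  rwa [cdiff, cdiff] at h2

end Pool.Agent.H65.FIN
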