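import Pool.Agent.H54.TF.Main
import Pool.Agent.H8.CDW.D3

/-!
# Finite Coxeter groups: reduction to the irreducible sets with at least three elements
-/

set_option autoImplicit false

namespace Pool.Agent.H65.FIN

open CoxeterSystem Pool.H8.CDW Pool.Agent.H54.TF

variable {B : Type} {M : CoxeterMatrix B}

/-- all triples are of finite type -/
def Sp3 (M : CoxeterMatrix B) (T : Set B) : Prop := ∀ i ∈ T, ∀ j ∈ T, ∀ k ∈ T, i ≠ j → j ≠ k → i ≠ k →
  (1 : ℝ) < 1 / M i j + 1 / M j k + 1 / M i k

/-- the irreducible sets with at least three elements, all of whose triples are of finite type, are of finite type -/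
def FinW (M : CoxeterMatrix B) : Prop := ∀ T : Set B, Irr M T → 3 ≤ T.ncard → Sp3 M T → Finite (resM M T).Group

theorem Sp3.mono {S T : Set B} (h : Sp3 M T) (hST : S ⊆ T) : Sp3 M S :=
  fun i hi j hj k hk => h i (hST hi) j (hST hj) k (hST hk)

/-- finiteness in the big group -/
theorem finite_iff (hM : ∀ i j, M i j ≠ 0) (T : Set B) :
    Finite (resM M T).Group ↔ Finite (par M.toCoxeterSystem T) := by
  have h := card_res M.toCoxeterSystem hM T
  constructor
  · intro hf
    refine Nat.finite_of_card_ne_zero ?_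
    rw [← h]
    exact Nat.card_pos.ne'
  · intro hf
    refine Nat.finite_of_card_ne_zero ?_
    rw [h]
    exact Nat.card_pos.ne'

/-- two generators -/
theorem fin_pair (hM : ∀ i j, M i j ≠ 0) (i j : B) : Finite (par M.toCoxeterSystem ({i, j} : Set B)) := by
  set s := M.toCoxeterSystem.simple i with hs
  set t := M.toCoxeterSystem.simple j with ht
  have h1 : (s * t) ^ M i j = 1 := M.toCoxeterSystem.simple_mul_simple_pow i j
  have hf : (Subgroup.zpowers (s * t) : Set M.Group).Finite := by
    have h2 : IsOfFinOrder (s * t) := isOfFinOrder_iff_pow_eq_one.2 ⟨M i j, Nat.pos_of_ne_zero (hM i j), h1⟩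
    exact h2.finite_zpowers
  have hss : s * s = 1 := M.toCoxeterSystem.simple_mul_simple_self i
  have htt : t * t = 1 := M.toCoxeterSystem.simple_mul_simple_self j
  have hsi : s⁻¹ = s := inv_eq_of_mul_eq_one_left hss
  have hti : t⁻¹ = t := inv_eq_of_mul_eq_one_left htt
  let A : Set M.Group := (Subgroup.zpowers (s * t) : Set M.Group) ∪ (fun x => s * x) '' (Subgroup.zpowers (s * t) : Set M.Group)
  have hsA : ∀ y ∈ A, s * y ∈ A := by
    rintro y (hy | ⟨z, hz, rfl⟩)
    · exact Or.inr ⟨y, hy, rfl⟩
    · left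
      show s * (s * z) ∈ _
      rw [← mul_assoc, hss, one_mul]
      exact hz
  have htA : ∀ y ∈ A, t * y ∈ A := by
    rintro y (hy | ⟨z, hz, rfl⟩)
    · right
      refine ⟨s * t * y, Subgroup.mul_mem _ (Subgroup.mem_zpowers _) hy, ?_⟩
      show s * (s * t * y) = t * y
      rw [mul_assoc, ← mul_assoc s s, hss, one_mul]
    · left
      have h3 : t * (s * z) = (s * t)⁻¹ * z := by
        rw [mul_inv_rev, hsi, hti, mul_assoc]
      show t * (s * z) ∈ _
      rw [h3]
      exact Subgroup.mul_mem _ (Subgroup.inv_mem _ (Subgroup.mem_zpowers _)) hz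
  have hgen : ∀ a ∈ M.toCoxeterSystem.simple '' ({i, j} : Set B), a = s ∨ a = t := by
    rintro a ⟨k, hk, rfl⟩
    rcases hk with rfl | rfl
    · exact Or.inl rfl
    · exact Or.inr rfl
  have hsub : (par M.toCoxeterSystem ({i, j} : Set B) : Set M.Group) ⊆ A := by
    intro x hx
    refine Subgroup.closure_induction_left (p := fun x _ => x ∈ A) ?_ ?_ ?_ hx
    · exact Or.inl (one_mem _)
    · intro a ha y _ hy
      rcases hgen a ha with rfl | rfl
      · exact hsA y hy
      · exact htA y hy
    · intro a ha y _ hy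
      rcases hgen a ha with rfl | rfl
      · rw [hsi]
        exact hsA y hy
      · rw [hti]
        exact htA y hy
  exact ((hf.union (hf.image _)).subset hsub).to_subtype

/-- a set with at most two elements is contained in a pair -/
private theorem sub_pair [Finite B] [Nonempty B] {T : Set B} (h : T.ncard ≤ 2) : ∃ i j : B, T ⊆ {i, j} := by
  by_cases h1 : T.ncard ≤ 1
  · obtain ⟨a, ha⟩ := (Set.ncard_le_one_iff_subset_singleton (Set.toFinite T)).1 h1
    exact ⟨a, a, fun x hx => Or.inl (ha hx)⟩
  · obtain ⟨x, y, _, rfl⟩ := Set.ncard_eq_two.1 (show T.ncard = 2 by omega)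
    exact ⟨x, y, subset_rfl⟩

/-- products -/
private theorem fin_prod {S T : Set B} (h : ∀ i ∈ S, ∀ j ∈ T, M i j = 2) (hS : Finite (par M.toCoxeterSystem S))
    (hT : Finite (par M.toCoxeterSystem T)) : Finite (par M.toCoxeterSystem (S ∪ T)) := by
  have hcomm : ∀ x ∈ par M.toCoxeterSystem S, ∀ y ∈ par M.toCoxeterSystem T, Commute x y := by
    intro x hx y hy
    refine Subgroup.closure_induction (p := fun x _ => Commute x y) ?_ (Commute.one_left y)
      (fun a b _ _ ha hb => ha.mul_left hb) (fun a _ ha => ha.inv_left) hx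
    rintro a ⟨i, hi, rfl⟩
    refine Subgroup.closure_induction (p := fun y _ => Commute (M.toCoxeterSystem.simple i) y) ?_ (Commute.one_right _)
      (fun a b _ _ ha hb => ha.mul_right hb) (fun a _ ha => ha.inv_right) hy
    rintro b ⟨j, hj, rfl⟩
    have h1 := M.toCoxeterSystem.simple_mul_simple_pow i j
    rw [h i hi j hj, pow_two] at h1
    have h2 := M.toCoxeterSystem.simple_mul_simple_self i
    have h3 := M.toCoxeterSystem.simple_mul_simple_self j
    set s := M.toCoxeterSystem.simple i
    set t := M.toCoxeterSystem.simple j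
    show s * t = t * s
    have h4 : (s * t)⁻¹ = t * s := by
      rw [mul_inv_rev, inv_eq_of_mul_eq_one_left h2, inv_eq_of_mul_eq_one_left h3]
    rw [← h4]
    exact (inv_eq_of_mul_eq_one_left h1).symm
  have hsub : (par M.toCoxeterSystem (S ∪ T) : Set M.Group) ⊆
      Set.range (fun p : par M.toCoxeterSystem S × par M.toCoxeterSystem T => (p.1 : M.Group) * p.2) := by
    intro x hx
    refine Subgroup.closure_induction (p := fun x _ => x ∈
      Set.range (fun p : par M.toCoxeterSystem S × par M.toCoxeterSystem T => (p.1 : M.Group) * p.2)) ?_ ?_ ?_ ?_ hx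
    · rintro a ⟨k, hk | hk, rfl⟩
      · exact ⟨(⟨_, simple_mem_par _ hk⟩, 1), mul_one _⟩
      · exact ⟨(1, ⟨_, simple_mem_par _ hk⟩), one_mul _⟩
    · exact ⟨(1, 1), mul_one _⟩
    · rintro _ _ _ _ ⟨⟨a, b⟩, rfl⟩ ⟨⟨c, d⟩, rfl⟩
      refine ⟨(a * c, b * d), ?_⟩
      show (a : M.Group) * c * (b * d) = a * b * (c * d)
      rw [mul_assoc, ← mul_assoc (c : M.Group), (hcomm c c.2 b b.2).eq]
      simp only [mul_assoc]
    · rintro _ _ ⟨⟨a, b⟩, rfl⟩
      refine ⟨(a⁻¹, b⁻¹), ?_⟩
      show (a : M.Group)⁻¹ * (b : M.Group)⁻¹ = ((a : M.Group) * b)⁻¹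
      rw [(hcomm a a.2 b b.2).eq, mul_inv_rev]
  exact ((Set.finite_range _).subset hsub).to_subtype

/-- all sets all of whose triples are of finite type are of finite type -/
theorem FinW.all [Finite B] (h : FinW M) (hM : ∀ i j, M i j ≠ 0) (T : Set B) (hT : Sp3 M T) :
    Finite (resM M T).Group := by
  rw [finite_iff hM]
  induction hn : T.ncard using Nat.strong_induction_on generalizing T with
  | _ n ih =>
  rcases isEmpty_or_nonempty B with hB | hB
  · have h1 : T = ∅ := Set.eq_empty_of_isEmpty T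
    rw [h1, par_empty]
    infer_instance
  by_cases hI : Irr M T
  · by_cases h3 : 3 ≤ T.ncard
    · rw [← finite_iff hM]
      exact h T hI h3 hT
    · obtain ⟨i, j, hij⟩ := sub_pair (T := T) (by omega)
      have := fin_pair hM i j
      exact Finite.Set.subset _ (par_mono M.toCoxeterSystem hij)
  · unfold Irr at hI
    push Not at hI
    obtain ⟨L, hL, hne, hLS, h2⟩ := hI
    have h3 : L ∪ T \ L = T := Set.union_sdiff_cancel hL
    rw [← h3]
    refine fin_prod (fun i hi j hj => h2 i hi j hj.1 hj.2) (ih L.ncard ?_ L (hT.mono hL) rfl)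
      (ih (T \ L).ncard ?_ (T \ L) (hT.mono Set.sdiff_subset) rfl)
    · rw [← hn]
      exact Set.ncard_lt_ncard (hL.ssubset_of_ne hLS)
    · rw [← hn]
      refine Set.ncard_lt_ncard (Set.sdiff_subset.ssubset_of_ne ?_)
      intro h4
      obtain ⟨x, hx⟩ := hne
      have h5 : x ∈ T \ L := by
        rw [h4]
        exact hL hx
      exact h5.2 hx

end Pool.Agent.H65.FIN
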